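import Pool.Agent.Helper79.KW.Base

/-!
# Piece MN2: norm estimates for matrices over C*-algebras (MP_715b63_an)
-/

set_option autoImplicit false

open CategoryTheory Topology
open scoped ENNReal

namespace Pool.Agent.KW

universe u v

namespace MN2Aux

section Order

variable {n A : Type*} [Fintype n] [NonUnitalCStarAlgebra A] [PartialOrder A] [StarOrderedRing A]

open scoped InnerProductSpace WithCStarModule in
theorem norm_le_iff (M : CStarMatrix n n A) {C : ℝ} (hC : 0 ≤ C)
    (h : ∀ v : n → A, ‖∑ j, (∑ i, v i * M i j) * star (∑ i, v i * M i j)‖ ≤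
      C ^ 2 * ‖∑ i, v i * star (v i)‖) : ‖M‖ ≤ C := by
  rw [CStarMatrix.norm_def]
  refine ContinuousLinearMap.opNorm_le_bound _ hC fun v => ?_
  have h1 := h v
  have e1 : ‖CStarMatrix.toCLM M v‖ ^ 2 =
      ‖∑ j, (∑ i, v i * M i j) * star (∑ i, v i * M i j)‖ := by
    rw [WithCStarModule.pi_norm_sq, CStarMatrix.toCLM_apply_eq_sum]
    simp [WithCStarModule.inner_def]
  have e2 : ‖v‖ ^ 2 = ‖∑ i, v i * star (v i)‖ := by
    rw [WithCStarModule.pi_norm_sq]
    simp [WithCStarModule.inner_def]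
  rw [← e1, ← e2, ← mul_pow] at h1
  exact (pow_le_pow_iff_left₀ (norm_nonneg _) (by positivity) (by norm_num)).1 h1

theorem diag_nonneg (i0 : n) (X : CStarMatrix n n A) (hX : 0 ≤ X) : 0 ≤ X i0 i0 := by
  rw [StarOrderedRing.nonneg_iff] at hX
  induction hX using AddSubmonoid.closure_induction with
  | mem x hx =>
    obtain ⟨Y, rfl⟩ := hx
    simp only [CStarMatrix.mul_apply, CStarMatrix.star_apply]
    exact Finset.sum_nonneg fun j _ => star_mul_self_nonneg _
  | zero => exact le_rfl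
  | add x y _ _ hx hy => exact add_nonneg hx hy

/-- `⟨vM, vM⟩ ≤ ‖M‖² ⟨v, v⟩` -/
theorem row_le (M : CStarMatrix n n A) (v : n → A) :
    ∑ j, (∑ i, v i * M i j) * star (∑ i, v i * M i j) ≤
      (‖M‖ ^ 2 : ℝ) • ∑ i, v i * star (v i) := by
  rcases isEmpty_or_nonempty n with _ | ⟨⟨i0⟩⟩
  · simp
  let V : CStarMatrix n n A := CStarMatrix.ofMatrix (fun _ j => v j)
  have h := CStarAlgebra.star_right_conjugate_le_norm_smul (a := V) (b := M * star M)
    (IsSelfAdjoint.mul_star_self M)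
  rw [CStarRing.norm_self_mul_star, ← Complex.coe_smul] at h
  have h2 := diag_nonneg i0 _ (sub_nonneg.2 h)
  have e : V * (M * star M) * star V = (V * M) * star (V * M) := by
    rw [star_mul]; simp only [mul_assoc]
  rw [e, CStarMatrix.sub_apply, sub_nonneg] at h2
  have e1 : ((V * M) * star (V * M)) i0 i0 =
      ∑ j, (∑ i, v i * M i j) * star (∑ i, v i * M i j) := by
    rw [CStarMatrix.mul_apply]
    refine Finset.sum_congr rfl fun j _ => ?_
    rw [CStarMatrix.star_apply, CStarMatrix.mul_apply]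
    rfl
  have e2 : (((‖M‖ * ‖M‖ : ℝ) : ℂ) • (V * star V)) i0 i0 =
      (‖M‖ ^ 2 : ℝ) • ∑ i, v i * star (v i) := by
    rw [CStarMatrix.smul_apply, CStarMatrix.mul_apply, pow_two, Complex.coe_smul]
    rfl
  rw [e1, e2] at h2
  exact h2

/-- order version of a bound -/
theorem row_le' (M : CStarMatrix n n A) {C : ℝ} (hC : ‖M‖ ≤ C) (v : n → A) :
    ∑ j, (∑ i, v i * M i j) * star (∑ i, v i * M i j) ≤
      (C ^ 2 : ℝ) • ∑ i, v i * star (v i) := by
  refine (row_le M v).trans ?_
  have h1 : 0 ≤ ∑ i, v i * star (v i) := Finset.sum_nonneg fun j _ => mul_star_self_nonneg _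
  have h2 : ‖M‖ ^ 2 ≤ C ^ 2 := pow_le_pow_left₀ (norm_nonneg _) hC 2
  exact smul_le_smul_of_nonneg_right h2 h1

theorem norm_le_of_order (M : CStarMatrix n n A) {C : ℝ} (hC : 0 ≤ C)
    (h : ∀ v : n → A, ∑ j, (∑ i, v i * M i j) * star (∑ i, v i * M i j) ≤
      (C ^ 2 : ℝ) • ∑ i, v i * star (v i)) : ‖M‖ ≤ C := by
  refine norm_le_iff M hC fun v => ?_
  have h0 : 0 ≤ ∑ j, (∑ i, v i * M i j) * star (∑ i, v i * M i j) :=
    Finset.sum_nonneg fun j _ => mul_star_self_nonneg _
  refine (CStarAlgebra.norm_le_norm_of_nonneg_of_le h0 (h v)).trans ?_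
  rw [norm_smul, Real.norm_of_nonneg (by positivity)]

/-- Cauchy-Schwarz for real coefficients -/
theorem cauchy {m : Type*} (s : Finset m) (r : m → ℝ) (w : m → A) :
    (∑ i ∈ s, r i • w i) * star (∑ i ∈ s, r i • w i) ≤
      (∑ i ∈ s, r i ^ 2) • ∑ i ∈ s, w i * star (w i) := by
  classical
  rw [← sub_nonneg]
  have key : (2 : ℝ) • ((∑ i ∈ s, r i ^ 2) • ∑ i ∈ s, w i * star (w i) -
      (∑ i ∈ s, r i • w i) * star (∑ i ∈ s, r i • w i)) =
      ∑ i ∈ s, ∑ j ∈ s, (r i • w j - r j • w i) * star (r i • w j - r j • w i) := by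
    have e1 : ∀ i j, (r i • w j - r j • w i) * star (r i • w j - r j • w i) =
        (r i ^ 2) • (w j * star (w j)) + (r j ^ 2) • (w i * star (w i)) -
        ((r i • w i) * star (r j • w j)) - ((r j • w j) * star (r i • w i)) := by
      intro i j
      simp only [star_sub, star_smul, star_trivial, mul_sub, sub_mul, smul_mul_smul_comm, pow_two,
        mul_comm (r j) (r i)]
      abel
    simp only [e1, Finset.sum_sub_distrib, Finset.sum_add_distrib]
    have a1 : ∑ i ∈ s, ∑ j ∈ s, (r i ^ 2) • (w j * star (w j)) =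
        (∑ i ∈ s, r i ^ 2) • ∑ i ∈ s, w i * star (w i) := by
      rw [Finset.sum_smul]
      refine Finset.sum_congr rfl fun i _ => ?_
      rw [Finset.smul_sum]
    have a2 : ∑ i ∈ s, ∑ j ∈ s, (r j ^ 2) • (w i * star (w i)) =
        (∑ i ∈ s, r i ^ 2) • ∑ i ∈ s, w i * star (w i) := by
      rw [Finset.sum_comm]; exact a1
    have a3 : ∑ i ∈ s, ∑ j ∈ s, ((r i • w i) * star (r j • w j)) =
        (∑ i ∈ s, r i • w i) * star (∑ i ∈ s, r i • w i) := by
      rw [star_sum, Finset.sum_mul_sum]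
    have a4 : ∑ i ∈ s, ∑ j ∈ s, ((r j • w j) * star (r i • w i)) =
        (∑ i ∈ s, r i • w i) * star (∑ i ∈ s, r i • w i) := by
      rw [Finset.sum_comm]; exact a3
    rw [a1, a2, a3, a4, two_smul]
    abel
  have h0 : 0 ≤ (2 : ℝ) • ((∑ i ∈ s, r i ^ 2) • ∑ i ∈ s, w i * star (w i) -
      (∑ i ∈ s, r i • w i) * star (∑ i ∈ s, r i • w i)) := by
    rw [key]
    exact Finset.sum_nonneg fun i _ => Finset.sum_nonneg fun j _ => mul_star_self_nonneg _
  have h1 := smul_nonneg (show (0 : ℝ) ≤ 1 / 2 by norm_num) h0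
  rw [smul_smul, show (1 / 2 : ℝ) * 2 = 1 by norm_num, one_smul] at h1
  exact h1

omit [PartialOrder A] [StarOrderedRing A] in
theorem sum_mul_star_of_unique {m : Type*} [Fintype m] (f : m → A)
    (h : ∀ i i', f i ≠ 0 → f i' ≠ 0 → i = i') :
    (∑ i, f i) * star (∑ i, f i) = ∑ i, f i * star (f i) := by
  classical
  by_cases h0 : ∀ i, f i = 0
  · simp [h0]
  · push Not at h0
    obtain ⟨i0, hi0⟩ := h0
    have h1 : ∀ i, i ≠ i0 → f i = 0 := fun i hi => by
      by_contra hne
      exact hi (h i i0 hne hi0)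
    rw [Finset.sum_eq_single i0 (fun i _ hi => h1 i hi) (fun hi => absurd (Finset.mem_univ _) hi),
      Finset.sum_eq_single i0 (fun i _ hi => by rw [h1 i hi, zero_mul])
        (fun hi => absurd (Finset.mem_univ _) hi)]

theorem conj_le (a b : A) {C : ℝ} (hb : ‖b‖ ≤ C) :
    (a * b) * star (a * b) ≤ (C ^ 2 : ℝ) • (a * star a) := by
  have h := CStarAlgebra.star_right_conjugate_le_norm_smul (a := a) (b := b * star b)
    (IsSelfAdjoint.mul_star_self b)
  rw [CStarRing.norm_self_mul_star] at h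
  have e : a * b * star (a * b) = a * (b * star b) * star a := by
    rw [star_mul]; simp only [mul_assoc]
  rw [e]
  refine h.trans ?_
  have h1 : 0 ≤ a * star a := mul_star_self_nonneg _
  have h2 : ‖b‖ * ‖b‖ ≤ C ^ 2 := by
    rw [pow_two]
    exact mul_le_mul hb hb (norm_nonneg _) ((norm_nonneg _).trans hb)
  exact smul_le_smul_of_nonneg_right h2 h1

theorem norm_le_of_entries (M : CStarMatrix n n A) (C : ℝ) (hC : 0 ≤ C)
    (hrow : ∀ i j j', M i j ≠ 0 → M i j' ≠ 0 → j = j')
    (hcol : ∀ i i' j, M i j ≠ 0 → M i' j ≠ 0 → i = i') (h : ∀ i j, ‖M i j‖ ≤ C) :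
    ‖M‖ ≤ C := by
  classical
  refine norm_le_of_order M hC fun v => ?_
  have h1 : ∀ j, (∑ i, v i * M i j) * star (∑ i, v i * M i j) =
      ∑ i, (v i * M i j) * star (v i * M i j) := by
    intro j
    apply sum_mul_star_of_unique
    intro i i' hi hi'
    exact hcol i i' j (fun h0 => hi (by rw [h0, mul_zero])) (fun h0 => hi' (by rw [h0, mul_zero]))
  simp only [h1]
  rw [Finset.sum_comm, Finset.smul_sum]
  refine Finset.sum_le_sum fun i _ => ?_
  by_cases h0 : ∀ j, M i j = 0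
  · have : ∑ j, (v i * M i j) * star (v i * M i j) = 0 := by
      apply Finset.sum_eq_zero
      intro j _
      rw [h0 j, mul_zero, zero_mul]
    rw [this]
    exact smul_nonneg (by positivity) (mul_star_self_nonneg _)
  · push Not at h0
    obtain ⟨j0, hj0⟩ := h0
    rw [Finset.sum_eq_single j0 (fun j _ hj => by
      have : M i j = 0 := by
        by_contra hne
        exact hj (hrow i j j0 hne hj0)
      rw [this, mul_zero, zero_mul]) (fun hj => absurd (Finset.mem_univ _) hj)]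
    exact conj_le _ _ (h i j0)

theorem norm_le_of_blocks {κ : Type*} (c : n → κ) (M : n → n → A)
    (hM : ∀ i j, c i ≠ c j → M i j = 0) (ρ : ℝ) (hρ : 0 ≤ ρ)
    (hb : ∀ E : Finset n, E.Nonempty → (∀ i ∈ E, ∀ j ∈ E, c i = c j) →
      ‖(CStarMatrix.ofMatrix (fun i j : E => M i j) : CStarMatrix E E A)‖ ≤ ρ) :
    ‖(CStarMatrix.ofMatrix M : CStarMatrix n n A)‖ ≤ ρ := by
  classical
  refine norm_le_of_order _ hρ fun v => ?_
  have hmaps : ∀ j ∈ (Finset.univ : Finset n), c j ∈ Finset.univ.image c := fun j _ =>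
    Finset.mem_image_of_mem _ (Finset.mem_univ _)
  rw [← Finset.sum_fiberwise_of_maps_to hmaps, ← Finset.sum_fiberwise_of_maps_to hmaps,
    Finset.smul_sum]
  refine Finset.sum_le_sum fun k hk => ?_
  set E : Finset n := Finset.univ.filter (fun j => c j = k) with hE
  have hEne : E.Nonempty := by
    obtain ⟨j, -, hj⟩ := Finset.mem_image.1 hk
    exact ⟨j, Finset.mem_filter.2 ⟨Finset.mem_univ _, hj⟩⟩
  have hEc : ∀ i ∈ E, ∀ j ∈ E, c i = c j := fun i hi j hj => by
    rw [(Finset.mem_filter.1 hi).2, (Finset.mem_filter.1 hj).2]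
  have h1 := row_le' (CStarMatrix.ofMatrix (fun i j : E => M i j)) (hb E hEne hEc)
    (fun i : E => v i)
  have e1 : ∀ j ∈ E, ∑ i, v i * (CStarMatrix.ofMatrix M : CStarMatrix n n A) i j =
      ∑ i : E, v i * M i j := by
    intro j hj
    rw [Finset.sum_coe_sort E (fun i => v i * M i j)]
    symm
    apply Finset.sum_subset (Finset.subset_univ _)
    intro i _ hi
    have : M i j = 0 := by
      apply hM
      intro h0
      apply hi
      rw [hE, Finset.mem_filter]
      exact ⟨Finset.mem_univ _, h0.trans (Finset.mem_filter.1 hj).2⟩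
    rw [this, mul_zero]
  have e2 : ∑ j ∈ E, (∑ i, v i * (CStarMatrix.ofMatrix M : CStarMatrix n n A) i j) *
      star (∑ i, v i * (CStarMatrix.ofMatrix M : CStarMatrix n n A) i j) =
      ∑ j : E, (∑ i : E, v i * M i j) * star (∑ i : E, v i * M i j) := by
    rw [Finset.sum_coe_sort E (fun j => (∑ i : E, v i * M i j) * star (∑ i : E, v i * M i j))]
    refine Finset.sum_congr rfl fun j hj => ?_
    rw [e1 j hj]
  rw [e2]
  refine le_trans h1 (le_of_eq ?_)
  rw [Finset.sum_coe_sort E (fun i => v i * star (v i))]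

variable {m : Type*} [Fintype m]

theorem V1 (v : m → n → ℝ) (hv : ∀ i k l, v i k ≠ 0 → v i l ≠ 0 → k = l)
    (hv1 : ∀ k, ∑ i, v i k ^ 2 ≤ 1) (x : n → A) :
    ∑ j, (∑ l, v j l • x l) * star (∑ l, v j l • x l) ≤ ∑ l, x l * star (x l) := by
  have h1 : ∀ j, (∑ l, v j l • x l) * star (∑ l, v j l • x l) =
      ∑ l, (v j l ^ 2) • (x l * star (x l)) := by
    intro j
    rw [sum_mul_star_of_unique]
    · refine Finset.sum_congr rfl fun l _ => ?_
      rw [star_smul, star_trivial, smul_mul_smul_comm, pow_two]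
    · intro l l' h h'
      exact hv j l l' (fun h0 => h (by rw [h0, zero_smul])) (fun h0 => h' (by rw [h0, zero_smul]))
  simp only [h1]
  rw [Finset.sum_comm]
  refine Finset.sum_le_sum fun l _ => ?_
  rw [← Finset.sum_smul]
  have h2 := smul_le_smul_of_nonneg_right (hv1 l) (mul_star_self_nonneg (x l))
  rwa [one_smul] at h2

theorem V2 (v : m → n → ℝ) (hv : ∀ i k l, v i k ≠ 0 → v i l ≠ 0 → k = l)
    (hv1 : ∀ k, ∑ i, v i k ^ 2 ≤ 1) (w : m → A) :
    ∑ k, (∑ i, v i k • w i) * star (∑ i, v i k • w i) ≤ ∑ i, w i * star (w i) := by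
  classical
  have h1 : ∀ k, (∑ i, v i k • w i) * star (∑ i, v i k • w i) ≤
      ∑ i, if v i k ≠ 0 then w i * star (w i) else 0 := by
    intro k
    have e1 : ∑ i, v i k • w i = ∑ i ∈ Finset.univ.filter (fun i => v i k ≠ 0), v i k • w i := by
      symm
      apply Finset.sum_subset (Finset.subset_univ _)
      intro i _ hi
      rw [Finset.mem_filter] at hi
      push Not at hi
      rw [hi (Finset.mem_univ _), zero_smul]
    rw [e1, ← Finset.sum_filter]
    refine (cauchy _ (fun i => v i k) w).trans ?_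
    have h2 : ∑ i ∈ Finset.univ.filter (fun i => v i k ≠ 0), v i k ^ 2 ≤ 1 := by
      refine le_trans ?_ (hv1 k)
      exact Finset.sum_le_sum_of_subset_of_nonneg (Finset.subset_univ _) (fun i _ _ => sq_nonneg _)
    have h3 : 0 ≤ ∑ i ∈ Finset.univ.filter (fun i => v i k ≠ 0), w i * star (w i) :=
      Finset.sum_nonneg fun i _ => mul_star_self_nonneg _
    have h4 := smul_le_smul_of_nonneg_right h2 h3
    rwa [one_smul] at h4
  refine (Finset.sum_le_sum fun k _ => h1 k).trans ?_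
  rw [Finset.sum_comm]
  refine Finset.sum_le_sum fun i _ => ?_
  by_cases h0 : ∀ k, v i k = 0
  · have : ∑ k, (if v i k ≠ 0 then w i * star (w i) else 0) = 0 := by
      apply Finset.sum_eq_zero
      intro k _
      simp [h0 k]
    rw [this]
    exact mul_star_self_nonneg _
  · push Not at h0
    obtain ⟨k0, hk0⟩ := h0
    rw [Finset.sum_eq_single k0 (fun k _ hk => by
      have : v i k = 0 := by
        by_contra hne
        exact hk (hv i k k0 hne hk0)
      simp [this]) (fun hj => absurd (Finset.mem_univ _) hj), if_pos hk0]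

omit [PartialOrder A] [StarOrderedRing A] in
/-- the action of `V M Vᵀ` on a row -/
theorem row_conj {m' n' : Type*} [Fintype m'] [Fintype n'] (v : m' → n' → ℝ) (M : n' → n' → A)
    (w : m' → A) (j : m') :
    ∑ i, w i * (∑ k, ∑ l, ((v i k * v j l : ℝ) : ℂ) • M k l) =
      ∑ l, v j l • ∑ k, (∑ i, v i k • w i) * M k l := by
  simp only [Complex.coe_smul, Finset.mul_sum, Finset.sum_mul, Finset.smul_sum, mul_smul_comm,
    smul_mul_assoc, smul_smul]
  rw [Finset.sum_comm]
  rw [Finset.sum_congr rfl fun k _ => Finset.sum_comm]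
  rw [Finset.sum_comm]
  refine Finset.sum_congr rfl fun l _ => Finset.sum_congr rfl fun k _ =>
    Finset.sum_congr rfl fun i _ => ?_
  rw [mul_comm (v i k)]

theorem norm_conj_le (v : m → n → ℝ) (hv : ∀ i k l, v i k ≠ 0 → v i l ≠ 0 → k = l)
    (hv1 : ∀ k, ∑ i, v i k ^ 2 ≤ 1) (M : n → n → A) :
    ‖(CStarMatrix.ofMatrix (fun i j : m => ∑ k, ∑ l, ((v i k * v j l : ℝ) : ℂ) • M k l) :
      CStarMatrix m m A)‖ ≤ ‖(CStarMatrix.ofMatrix M : CStarMatrix n n A)‖ := by
  refine norm_le_of_order _ (norm_nonneg _) fun w => ?_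
  have e1 : ∀ j, ∑ i, w i * (CStarMatrix.ofMatrix
      (fun i j : m => ∑ k, ∑ l, ((v i k * v j l : ℝ) : ℂ) • M k l) : CStarMatrix m m A) i j =
      ∑ l, v j l • ∑ k, (∑ i, v i k • w i) * M k l := fun j => row_conj v M w j
  simp only [e1]
  refine (V1 v hv hv1 _).trans ?_
  refine (row_le (CStarMatrix.ofMatrix M) (fun k => ∑ i, v i k • w i)).trans ?_
  exact smul_le_smul_of_nonneg_left (V2 v hv hv1 w) (by positivity)

theorem norm_conj_le' (v : m → n → ℝ) (hv : ∀ i k l, v i k ≠ 0 → v i l ≠ 0 → k = l)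
    (hv1 : ∀ k, ∑ i, v i k ^ 2 ≤ 1) (N : m → m → A) :
    ‖(CStarMatrix.ofMatrix (fun k l : n => ∑ i, ∑ j, ((v i k * v j l : ℝ) : ℂ) • N i j) :
      CStarMatrix n n A)‖ ≤ ‖(CStarMatrix.ofMatrix N : CStarMatrix m m A)‖ := by
  refine norm_le_of_order _ (norm_nonneg _) fun w => ?_
  have e1 : ∀ l, ∑ k, w k * (CStarMatrix.ofMatrix
      (fun k l : n => ∑ i, ∑ j, ((v i k * v j l : ℝ) : ℂ) • N i j) : CStarMatrix n n A) k l =
      ∑ j, v j l • ∑ i, (∑ k, v i k • w k) * N i j := fun l =>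
    row_conj (fun k i => v i k) N w l
  simp only [e1]
  refine (V2 v hv hv1 _).trans ?_
  refine (row_le (CStarMatrix.ofMatrix N) (fun i => ∑ k, v i k • w k)).trans ?_
  exact smul_le_smul_of_nonneg_left (V1 v hv hv1 w) (by positivity)

theorem sub_mul_le (x b : A) (hb : ‖b‖ ≤ 1) :
    (x - x * (star b * b)) * star (x - x * (star b * b)) ≤ x * star x := by
  set y := x * star b with hy
  have e : x * star x - (x - x * (star b * b)) * star (x - x * (star b * b)) =
      (y * star y) + (y * star y - (y * b) * star (y * b)) := by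
    have e1 : x * (star b * b) = y * b := by rw [hy, mul_assoc]
    have e2 : star (y * b) = star b * star y := star_mul _ _
    have e3 : star y = b * star x := by rw [hy, star_mul, star_star]
    have e4 : x * star (y * b) = y * star y := by rw [e2, ← mul_assoc, ← hy]
    have e5 : y * b * star x = y * star y := by rw [e3, mul_assoc]
    rw [e1, star_sub, mul_sub, sub_mul, sub_mul, e4, e5]
    abel
  rw [← sub_nonneg, e]
  have h1 := conj_le y b hb
  rw [one_pow, one_smul] at h1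
  exact add_nonneg (mul_star_self_nonneg _) (sub_nonneg.2 h1)

theorem norm_sub_mul_le (M : n → n → A) (b : n → A) (hb : ∀ j, ‖b j‖ ≤ 1) :
    ‖(CStarMatrix.ofMatrix (fun i j => M i j - M i j * (star (b j) * b j)) :
      CStarMatrix n n A)‖ ≤ ‖(CStarMatrix.ofMatrix M : CStarMatrix n n A)‖ := by
  refine norm_le_of_order _ (norm_nonneg _) fun v => ?_
  refine le_trans ?_ (row_le (CStarMatrix.ofMatrix M) v)
  refine Finset.sum_le_sum fun j _ => ?_
  have e1 : ∑ i, v i * (CStarMatrix.ofMatrix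
      (fun i j => M i j - M i j * (star (b j) * b j)) : CStarMatrix n n A) i j =
      (∑ i, v i * M i j) - (∑ i, v i * M i j) * (star (b j) * b j) := by
    rw [Finset.sum_mul, ← Finset.sum_sub_distrib]
    refine Finset.sum_congr rfl fun i _ => ?_
    rw [CStarMatrix.ofMatrix_apply, mul_sub, mul_assoc]
  rw [e1]
  exact sub_mul_le _ _ (hb j)

end Order

end MN2Aux

section MN2
variable {m n A B : Type*} [Fintype n] [Fintype m] [NonUnitalCStarAlgebra A]
  [NonUnitalCStarAlgebra B]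

/-- at most one nonzero entry in each row and column -/
theorem matNorm_le_of_entries (M : n → n → A) (C : ℝ) (hC : 0 ≤ C)
    (hrow : ∀ i j j', M i j ≠ 0 → M i j' ≠ 0 → j = j')
    (hcol : ∀ i i' j, M i j ≠ 0 → M i' j ≠ 0 → i = i') (h : ∀ i j, ‖M i j‖ ≤ C) :
    matNorm M ≤ C := by
  let _ := CStarAlgebra.spectralOrder A
  let _ := CStarAlgebra.spectralOrderedRing A
  exact MN2Aux.norm_le_of_entries (CStarMatrix.ofMatrix M) C hC hrow hcol h

/-- block diagonal matrices -/
theorem matNorm_le_of_blocks {κ : Type*} (c : n → κ) (M : n → n → A)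
    (hM : ∀ i j, c i ≠ c j → M i j = 0) (ρ : ℝ) (hρ : 0 ≤ ρ)
    (hb : ∀ E : Finset n, E.Nonempty → (∀ i ∈ E, ∀ j ∈ E, c i = c j) →
      matNorm (fun i j : E => M i j) ≤ ρ) : matNorm M ≤ ρ := by
  let _ := CStarAlgebra.spectralOrder A
  let _ := CStarAlgebra.spectralOrderedRing A
  exact MN2Aux.norm_le_of_blocks c M hM ρ hρ hb

/-- `‖V M Vᵀ‖ ≤ ‖M‖` where `V` is a real `m × n` matrix with at most one nonzero entry in each
row, and columns of norm at most one -/
theorem matNorm_conj_le (v : m → n → ℝ) (hv : ∀ i k l, v i k ≠ 0 → v i l ≠ 0 → k = l)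
    (hv1 : ∀ k, ∑ i, v i k ^ 2 ≤ 1) (M : n → n → A) :
    matNorm (fun i j : m => ∑ k, ∑ l, ((v i k * v j l : ℝ) : ℂ) • M k l) ≤ matNorm M := by
  let _ := CStarAlgebra.spectralOrder A
  let _ := CStarAlgebra.spectralOrderedRing A
  exact MN2Aux.norm_conj_le v hv hv1 M

/-- `‖Vᵀ N V‖ ≤ ‖N‖` for the same `V` -/
theorem matNorm_conj_le' (v : m → n → ℝ) (hv : ∀ i k l, v i k ≠ 0 → v i l ≠ 0 → k = l)
    (hv1 : ∀ k, ∑ i, v i k ^ 2 ≤ 1) (N : m → m → A) :
    matNorm (fun k l : n => ∑ i, ∑ j, ((v i k * v j l : ℝ) : ℂ) • N i j) ≤ matNorm N := by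
  let _ := CStarAlgebra.spectralOrder A
  let _ := CStarAlgebra.spectralOrderedRing A
  exact MN2Aux.norm_conj_le' v hv hv1 N

/-- an element `e` with `0 ≤ e ≤ 1` (here: `e = b* b` with `‖b‖ ≤ 1`); right multiplication by the
diagonal matrix `1 - e` -/
theorem matNorm_sub_mul_le (M : n → n → A) (b : n → A) (hb : ∀ j, ‖b j‖ ≤ 1) :
    matNorm (fun i j => M i j - M i j * (star (b j) * b j)) ≤ matNorm M := by
  let _ := CStarAlgebra.spectralOrder A
  let _ := CStarAlgebra.spectralOrderedRing A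
  exact MN2Aux.norm_sub_mul_le M b hb

end MN2

end Pool.Agent.KW
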